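import Mathlib
import Pool.Agent.H85.AAE2.Defs

/-!
# Project AAE2 (MP_ae801b_ag), module DIM1

Krull dimension from algebraic relations, and along integral homomorphisms.
-/

set_option autoImplicit false

open Polynomial

namespace Pool.Agent.H85.AAE2

universe u

namespace DIM1

/-- evaluation through `finSuccEquiv` -/
theorem aeval_fse {k : Type u} [Field k] {Q : Type u} [CommRing Q] [Algebra k Q] {l : ℕ}
    (x : Fin (l + 1) → Q) (F : MvPolynomial (Fin (l + 1)) k) :
    MvPolynomial.aeval x F =
      (MvPolynomial.finSuccEquiv k l F).eval₂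
        (MvPolynomial.aeval (fun i : Fin l => x i.succ) : MvPolynomial (Fin l) k →ₐ[k] Q).toRingHom
        (x 0) := by
  induction F using MvPolynomial.induction_on with
  | C a =>
    have h : MvPolynomial.finSuccEquiv k l (MvPolynomial.C a) =
        Polynomial.C (MvPolynomial.C a) := by
      simp [MvPolynomial.finSuccEquiv_apply]
    rw [h, Polynomial.eval₂_C]
    simp
  | add p q hp hq => rw [map_add, map_add, Polynomial.eval₂_add, hp, hq]
  | mul_X p i hp =>
    rw [map_mul, map_mul, Polynomial.eval₂_mul, hp]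
    congr 1
    refine Fin.cases ?_ (fun j => ?_) i
    · rw [MvPolynomial.finSuccEquiv_X_zero, Polynomial.eval₂_X, MvPolynomial.aeval_X]
    · rw [MvPolynomial.finSuccEquiv_X_succ, Polynomial.eval₂_C, MvPolynomial.aeval_X]
      simp

/-- A nonzero polynomial does not vanish modulo the first prime of a chain at elements which
separate the consecutive primes of the chain. -/
theorem key {k : Type u} [Field k] {Q : Type u} [CommRing Q] [Algebra k Q] (l : ℕ) :
    ∀ (P : ℕ → Ideal Q), (∀ i, i ≤ l → (P i).IsPrime) → (∀ i, i < l → P i ≤ P (i + 1)) →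
      ∀ x : Fin l → Q, (∀ i : Fin l, x i ∈ P (i + 1)) → (∀ i : Fin l, x i ∉ P i) →
      ∀ F : MvPolynomial (Fin l) k, F ≠ 0 → MvPolynomial.aeval x F ∉ P 0 := by
  induction l with
  | zero =>
    intro P hP _ x _ _ F hF hmem
    obtain ⟨c, rfl⟩ := MvPolynomial.C_surjective (R := k) (Fin 0) F
    have hc : c ≠ 0 := by
      rintro rfl
      exact hF (by simp)
    have h0 := hP 0 le_rfl
    refine h0.ne_top ((Ideal.eq_top_iff_one _).2 ?_)
    have h1 : (MvPolynomial.aeval x (MvPolynomial.C c : MvPolynomial (Fin 0) k)) =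
        algebraMap k Q c := by simp
    rw [h1] at hmem
    have h2 := (P 0).mul_mem_left (algebraMap k Q c⁻¹) hmem
    rwa [← map_mul, inv_mul_cancel₀ hc, map_one] at h2
  | succ l ih =>
    intro P hP hle x hx hx' F hF hmem
    set G := MvPolynomial.finSuccEquiv k l F with hG
    have hG0 : G ≠ 0 := by
      intro h
      apply hF
      exact (MvPolynomial.finSuccEquiv k l).injective (by rw [← hG, h, map_zero])
    obtain ⟨H, hH⟩ : X ^ G.natTrailingDegree ∣ G :=
      (X_pow_dvd_iff).2 fun d hd => coeff_eq_zero_of_lt_natTrailingDegree hd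
    have hH0 : H.coeff 0 ≠ 0 := by
      have h1 : G.coeff G.natTrailingDegree ≠ 0 := by
        have := trailingCoeff_nonzero_iff_nonzero.2 hG0
        exact this
      have h2 : G.coeff G.natTrailingDegree = H.coeff 0 := by
        have := coeff_X_pow_mul H G.natTrailingDegree 0
        rw [zero_add, ← hH] at this
        exact this
      rwa [h2] at h1
    have h0 := hP 0 (Nat.zero_le _)
    have h1 := hP 1 (by omega)
    rw [aeval_fse, ← hG, hH, eval₂_mul, eval₂_pow, eval₂_X] at hmem
    have hx0 : x 0 ∉ P 0 := by simpa using hx' 0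
    have hx1 : x 0 ∈ P 1 := by simpa using hx 0
    rcases h0.mem_or_mem hmem with h | h
    · exact hx0 (h0.mem_of_pow_mem _ h)
    · have h3 := hle 0 (by omega) h
      rw [zero_add] at h3
      obtain ⟨H', hH'⟩ : X ∣ H - C (H.coeff 0) := by
        rw [X_dvd_iff]; simp
      have h4 : H = C (H.coeff 0) + X * H' := by rw [← hH']; ring
      rw [h4, eval₂_add, eval₂_C, eval₂_mul, eval₂_X] at h3
      have h5 : (MvPolynomial.aeval (fun i : Fin l => x i.succ) (H.coeff 0) : Q) ∈ P 1 := by
        have h6 := (P 1).mul_mem_right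
          (eval₂ (MvPolynomial.aeval (fun i : Fin l => x i.succ) :
            MvPolynomial (Fin l) k →ₐ[k] Q).toRingHom (x 0) H') hx1
        have h7 := (P 1).sub_mem h3 h6
        rw [add_sub_cancel_right] at h7
        exact h7
      refine ih (fun i => P (i + 1)) (fun i hi => hP (i + 1) (by omega))
        (fun i hi => hle (i + 1) (by omega)) (fun i => x i.succ) (fun i => ?_) (fun i => ?_)
        (H.coeff 0) hH0 h5
      · have := hx i.succ
        simpa using this
      · have := hx' i.succ
        simpa using this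

end DIM1

theorem dim_of_trLE {k : Type u} [Field k] {δ : ℕ} {Q : Type u} [CommRing Q] [Algebra k Q]
    (h : TrLE k δ Q) : ringKrullDim Q ≤ δ := by
  refine iSup_le fun p => ?_
  by_contra hlt
  have hlen : δ + 1 ≤ p.length := by
    by_contra hc
    apply hlt
    have : p.length ≤ δ := by omega
    exact_mod_cast this
  -- the chain
  let P : ℕ → Ideal Q := fun i => if hi : i ≤ p.length then (p ⟨i, by omega⟩).asIdeal else ⊤
  have hPd : ∀ i (hi : i ≤ p.length), P i = (p ⟨i, by omega⟩).asIdeal := fun i hi => dif_pos hi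
  have hlts : ∀ i, i < δ + 1 → P i < P (i + 1) := by
    intro i hi
    rw [hPd i (by omega), hPd (i + 1) (by omega)]
    exact p.strictMono (show (⟨i, by omega⟩ : Fin (p.length + 1)) < ⟨i + 1, by omega⟩ from by
      simp [Fin.lt_def])
  have hex : ∀ i : Fin (δ + 1), ∃ x : Q, x ∈ P (i + 1) ∧ x ∉ P i := by
    intro i
    obtain ⟨x, hx, hx'⟩ := SetLike.exists_of_lt (hlts i i.2)
    exact ⟨x, hx, hx'⟩
  choose x hx hx' using hex
  obtain ⟨F, hF, hF0⟩ := h x
  refine DIM1.key (δ + 1) P (fun i hi => ?_) (fun i hi => (hlts i hi).le) x hx hx' F hF ?_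
  · rw [hPd i (by omega)]
    exact (p ⟨i, by omega⟩).isPrime
  · rw [hF0]
    exact (P 0).zero_mem

theorem dim_of_integral {Λ Q : Type u} [CommRing Λ] [CommRing Q] (f : Λ →+* Q)
    (hf : f.IsIntegral) {δ : ℕ} (h : ringKrullDim Λ ≤ δ) : ringKrullDim Q ≤ δ := by
  refine le_trans ?_ h
  algebraize [f]
  refine Order.krullDim_le_of_strictMono (PrimeSpectrum.comap f) fun I J hIJ => ?_
  have := I.isPrime
  exact Ideal.IsIntegral.comap_lt_comap (R := Λ) (A := Q) (I := I.asIdeal) (J := J.asIdeal) hIJ

end Pool.Agent.H85.AAE2
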