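import Mathlib
import Pool.Agent.H85.AAE2.Defs

/-!
# Project AAE2 (MP_ae801b_ag), module DIM2

Basic properties of `TrLE k δ Q` (any `δ + 1` elements of `Q` are algebraically dependent).
-/

set_option autoImplicit false

open Polynomial

namespace Pool.Agent.H85.AAE2

universe u

theorem trLE_mono {k : Type u} [Field k] {δ δ' : ℕ} (hδ : δ ≤ δ') {Q : Type u} [CommRing Q]
    [Algebra k Q] (h : TrLE k δ Q) : TrLE k δ' Q := by
  intro x
  have hle : δ + 1 ≤ δ' + 1 := by omega
  obtain ⟨F, hF, hF0⟩ := h (fun i => x (Fin.castLE hle i))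
  refine ⟨MvPolynomial.rename (Fin.castLE hle) F, ?_, ?_⟩
  · intro h0
    exact hF (MvPolynomial.rename_injective _ (Fin.castLE_injective hle) (by rw [h0, map_zero]))
  · rw [MvPolynomial.aeval_rename]
    exact hF0

theorem trLE_of_injective {k : Type u} [Field k] {δ : ℕ} {Q Q' : Type u} [CommRing Q]
    [Algebra k Q] [CommRing Q'] [Algebra k Q'] (f : Q' →ₐ[k] Q) (hf : Function.Injective f)
    (h : TrLE k δ Q) : TrLE k δ Q' := by
  intro x
  obtain ⟨F, hF, hF0⟩ := h (fun i => f (x i))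
  refine ⟨F, hF, hf ?_⟩
  rw [map_zero, ← hF0]
  have := MvPolynomial.comp_aeval (R := k) x f
  exact congrArg (fun g => g F) this

theorem trLE_of_surjective {k : Type u} [Field k] {δ : ℕ} {Q Q' : Type u} [CommRing Q]
    [Algebra k Q] [CommRing Q'] [Algebra k Q'] (f : Q →ₐ[k] Q') (hf : Function.Surjective f)
    (h : TrLE k δ Q) : TrLE k δ Q' := by
  intro x
  choose y hy using fun i => hf (x i)
  obtain ⟨F, hF, hF0⟩ := h y
  refine ⟨F, hF, ?_⟩
  have h1 : (MvPolynomial.aeval x F : Q') = f (MvPolynomial.aeval y F) := by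
    have := MvPolynomial.comp_aeval (R := k) y f
    have h2 := congrArg (fun g => g F) this
    have h3 : (fun i => f (y i)) = x := funext hy
    simp only [AlgHom.comp_apply] at h2
    rw [h2, h3]
  rw [h1, hF0, map_zero]

/-- lifting to the ring: `F(y)` in the ideal -/
theorem DIM2.aeval_mk {k : Type u} [Field k] {B : Type u} [CommRing B] [Algebra k B] {l : ℕ}
    (b : Ideal B) (y : Fin l → B) (F : MvPolynomial (Fin l) k) :
    (MvPolynomial.aeval (fun i => Ideal.Quotient.mk b (y i)) F : B ⧸ b) =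
      Ideal.Quotient.mk b (MvPolynomial.aeval y F) := by
  have := MvPolynomial.comp_aeval (R := k) y (Ideal.Quotient.mkₐ k b)
  exact (congrArg (fun g => g F) this).symm

theorem trLE_pow {k : Type u} [Field k] {δ : ℕ} {B : Type u} [CommRing B] [Algebra k B]
    (b : Ideal B) (h : TrLE k δ (B ⧸ b)) (l : ℕ) : TrLE k δ (B ⧸ b ^ l) := by
  intro x
  choose y hy using fun i => Ideal.Quotient.mk_surjective (x i)
  obtain ⟨F, hF, hF0⟩ := h (fun i => Ideal.Quotient.mk b (y i))
  refine ⟨F ^ l, pow_ne_zero l hF, ?_⟩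
  have hx : x = fun i => Ideal.Quotient.mk (b ^ l) (y i) := funext fun i => (hy i).symm
  rw [DIM2.aeval_mk, Ideal.Quotient.eq_zero_iff_mem] at hF0
  rw [hx, DIM2.aeval_mk, Ideal.Quotient.eq_zero_iff_mem, map_pow]
  exact Ideal.pow_mem_pow hF0 l

theorem trLE_of_primes {k : Type u} [Field k] {B : Type u} [CommRing B] [Algebra k B]
    [IsNoetherianRing B] {δ : ℕ} (b : Ideal B)
    (h : ∀ p : Ideal B, p.IsPrime → b ≤ p → TrLE k δ (B ⧸ p)) : TrLE k δ (B ⧸ b) := by
  intro x
  choose y hy using fun i => Ideal.Quotient.mk_surjective (x i)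
  have hfin := Ideal.finite_minimalPrimes_of_isNoetherianRing B b
  have hex : ∀ p : Ideal B, ∃ F : MvPolynomial (Fin (δ + 1)) k, F ≠ 0 ∧
      (p ∈ b.minimalPrimes → MvPolynomial.aeval y F ∈ p) := by
    intro p
    by_cases hp : p ∈ b.minimalPrimes
    · obtain ⟨F, hF, hF0⟩ := h p hp.1.1 hp.1.2 (fun i => Ideal.Quotient.mk p (y i))
      rw [DIM2.aeval_mk, Ideal.Quotient.eq_zero_iff_mem] at hF0
      exact ⟨F, hF, fun _ => hF0⟩
    · exact ⟨1, one_ne_zero, fun hc => absurd hc hp⟩
  choose F hF hF0 using hex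
  set G : MvPolynomial (Fin (δ + 1)) k := ∏ p ∈ hfin.toFinset, F p with hG
  have hG0 : G ≠ 0 := Finset.prod_ne_zero_iff.2 fun p _ => hF p
  have hmem : MvPolynomial.aeval y G ∈ b.radical := by
    rw [← Ideal.sInf_minimalPrimes, Ideal.mem_sInf]
    intro p hp
    rw [hG, map_prod]
    exact Ideal.mem_of_dvd p (Finset.dvd_prod_of_mem (fun p => MvPolynomial.aeval y (F p))
      (hfin.mem_toFinset.2 hp)) (hF0 p hp)
  obtain ⟨n, hn⟩ := hmem
  refine ⟨G ^ n, pow_ne_zero n hG0, ?_⟩
  have hx : x = fun i => Ideal.Quotient.mk b (y i) := funext fun i => (hy i).symm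
  rw [hx, DIM2.aeval_mk, Ideal.Quotient.eq_zero_iff_mem, map_pow]
  exact hn

theorem trLE_of_gens {k : Type u} [Field k] {m δ : ℕ} {D : Type u} [CommRing D] [IsDomain D]
    [Algebra k D] (p : MvPolynomial (Fin m) k →ₐ[k] D) (hp : Function.Surjective p)
    (h : ∀ e : Fin (δ + 1) ↪ Fin m, ∃ F : MvPolynomial (Fin (δ + 1)) k, F ≠ 0 ∧
      MvPolynomial.aeval (fun i => p (MvPolynomial.X (e i))) F = 0) : TrLE k δ D := by
  intro x
  by_contra hno
  push Not at hno
  have hx : AlgebraicIndependent k x := by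
    rw [algebraicIndependent_iff]
    intro F hF
    by_contra hF0
    exact hno F hF0 hF
  set y : Fin m → D := fun i => p (MvPolynomial.X i) with hy
  have hadj : Algebra.adjoin k (Set.range y) = ⊤ := by
    have h1 : Set.range y = p '' Set.range (MvPolynomial.X : Fin m → MvPolynomial (Fin m) k) := by
      rw [hy, ← Set.range_comp]; rfl
    rw [h1, ← AlgHom.map_adjoin, MvPolynomial.adjoin_range_X, Algebra.map_top]
    exact (AlgHom.range_eq_top p).2 hp
  have halg : Algebra.IsAlgebraic (Algebra.adjoin k (Set.range y)) D := by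
    refine ⟨fun a => ?_⟩
    have ha : a ∈ Algebra.adjoin k (Set.range y) := by rw [hadj]; trivial
    exact isAlgebraic_algebraMap (R := Algebra.adjoin k (Set.range y)) (A := D) ⟨a, ha⟩
  obtain ⟨t, hts, ht⟩ := exists_isTranscendenceBasis_subset (R := k) (Set.range y)
  have h1 := hx.lift_cardinalMk_le_trdeg
  rw [← ht.cardinalMk_eq_trdeg, Cardinal.lift_mk_le'] at h1
  obtain ⟨e⟩ := h1
  choose j hj using fun a : t => hts a.2
  have hjinj : Function.Injective j := by
    intro a b hab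
    apply Subtype.ext
    rw [← hj a, ← hj b, hab]
  obtain ⟨F, hF, hF0⟩ := h (e.trans ⟨j, hjinj⟩)
  have h2 : (fun i => p (MvPolynomial.X ((e.trans ⟨j, hjinj⟩) i))) =
      ((↑) : t → D) ∘ e := by
    funext i
    exact hj (e i)
  rw [h2] at hF0
  have h3 : AlgebraicIndependent k (((↑) : t → D) ∘ e) := ht.1.comp e e.injective
  exact hF ((algebraicIndependent_iff.1 h3) F hF0)

end Pool.Agent.H85.AAE2
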