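import Mathlib
import Pool.Agent.H85.AAE2.Defs
import Pool.Agent.H71.AAE.Fin
import Pool.Agent.H7.AAE2.AL1
import Pool.Agent.H7.AAE2.AL2
import Pool.Agent.H24.AAE2.AL3
import Pool.Agent.H30.AAE2.S1
import Pool.Agent.H30.AAE2.S2
import Pool.Agent.H36.AAE2.MB
import Pool.Agent.H50.AAE2.GENA
import Pool.Agent.H50.AAE2.GENB
import Pool.Agent.H50.AAE2.MA
import Pool.Agent.H51.AAE2.GENC
import Pool.Agent.H51.AAE2.GEND
import Pool.Agent.H71.AAE2.MC
import Pool.Agent.H7.AAE2.STF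

/-!
# Project AAE2 (MP_ae801b_ag), module FIN

The main argument assembled (`main`) and the theorem (`final`).
-/

set_option autoImplicit false

open Polynomial

namespace Pool.Agent.H85.AAE2

open Pool.Agent.H71.AAE

universe u

theorem main {k : Type u} [Field k] {r m : ℕ} (_hm : m ≤ 2 * r + 2)
    (φ : (MvPolynomial (Fin (m + r + 2)) k)[X] →ₐ[k] MvPolynomial (Fin m) k)
    (hφ : Function.Surjective φ)
    (hS : ∀ b, ∃ α β : MvPolynomial (Fin (m + r + 2)) k, b = φ (C α) + φ (C β) * φ X)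
    (hdim : ∀ l, TrLE k r (MvPolynomial (Fin m) k ⧸ (cond φ) ^ l)) :
    ∃ w : Fin (r + 3) → (MvPolynomial (Fin (m + r + 2)) k)[X],
      Ideal.span (Set.range w) = RingHom.ker φ := by
  obtain ⟨α₀, s, hαs⟩ := hS (φ X ^ 2)
  have hg : φ X ^ 2 = φ (C s) * φ X - φ (C (-α₀)) := by
    rw [hαs, C_neg, map_neg]
    ring
  obtain ⟨t, hC⟩ := lemma_C φ hφ hg hS
  obtain ⟨e, he, hgen⟩ := gens φ rfl hφ
  obtain ⟨e', he', hgen', h0', hj'⟩ := gens3 φ hφ hg hS (t + 2) (hdim _) e he hgen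
  obtain ⟨e₂, he₂, hgen₂, h0₂, hj₂, hc₂⟩ := apply_star φ hφ hg hS (t + 2) (by omega) (hdim _)
    (star r m) e' he' hgen' h0' hj'
  exact main5 φ hφ hg hS t (t + 2) hC (by omega) (by omega) e₂ he₂ hgen₂ h0₂ hj₂ hc₂

/-- the generic shear: structure of the image and size of the conductor -/
theorem FIN.generic {k : Type u} [Field k] [Infinite k] {N m δ : ℕ} (h3 : 3 * m < 2 * N)
    (hmN : m ≤ N) (h2 : 2 * m ≤ N + δ)
    (φ : MvPolynomial (Fin (N + 1)) k →ₐ[k] MvPolynomial (Fin m) k)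
    (hφ : Function.Surjective φ) :
    ∃ lam : Fin N × Fin 2 → k,
      (∀ b, ∃ α β : MvPolynomial (Fin N) k,
        b = shear (fun i => φ (MvPolynomial.X i)) lam (C α) +
          shear (fun i => φ (MvPolynomial.X i)) lam (C β) *
            shear (fun i => φ (MvPolynomial.X i)) lam X) ∧
      ∀ l, TrLE k δ (MvPolynomial (Fin m) k ⧸
        (cond (shear (fun i => φ (MvPolynomial.X i)) lam)) ^ l) := by
  set f : Fin (N + 1) → MvPolynomial (Fin m) k := fun i => φ (MvPolynomial.X i) with hf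
  obtain ⟨P0, hP0, H0⟩ := generic_monic hmN f
  obtain ⟨P1, hP1, H1⟩ := generic_no_triple h3 f
  obtain ⟨P2, hP2, H2⟩ := generic_no_tangent_point h3 f
  obtain ⟨P3, hP3, H3⟩ := generic_no_jet h3 f
  choose P4 hP4 H4 using fun e : Fin (δ + 1) ↪ Fin m => generic_pairs h2 f e
  choose P5 hP5 H5 using fun e : Fin (δ + 1) ↪ Fin m => generic_ram h2 f e
  obtain ⟨lam, hlam⟩ := exists_good (P0 * P1 * P2 * P3 * (∏ e, P4 e) * (∏ e, P5 e))
    (mul_ne_zero (mul_ne_zero (mul_ne_zero (mul_ne_zero (mul_ne_zero hP0 hP1) hP2) hP3)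
      (Finset.prod_ne_zero_iff.2 fun e _ => hP4 e)) (Finset.prod_ne_zero_iff.2 fun e _ => hP5 e))
  rw [map_mul, map_mul, map_mul, map_mul, map_mul, map_prod, map_prod] at hlam
  have hl5 := Finset.prod_ne_zero_iff.1 (right_ne_zero_of_mul hlam)
  have hlam4 := left_ne_zero_of_mul hlam
  have hl4 := Finset.prod_ne_zero_iff.1 (right_ne_zero_of_mul hlam4)
  have hlam3 := left_ne_zero_of_mul hlam4
  have hl3 := right_ne_zero_of_mul hlam3
  have hlam2 := left_ne_zero_of_mul hlam3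
  have hl2 := right_ne_zero_of_mul hlam2
  have hlam1 := left_ne_zero_of_mul hlam2
  have hl1 := right_ne_zero_of_mul hlam1
  have hl0 := left_ne_zero_of_mul hlam1
  have hs := shear_surjective φ hφ lam
  have h0 := H0 lam hl0
  have h1 := H1 lam hl1
  have h2' := H2 lam hl2
  have h3' := H3 lam hl3
  have h4 := fun e => H4 e lam (hl4 e (Finset.mem_univ e))
  have h5 := fun e => H5 e lam (hl5 e (Finset.mem_univ e))
  simp only [← shear_X f lam] at h1 h2' h3' h4 h5
  have hS := struct_two' (shear f lam) hs h0 h1 h2' h3'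
  exact ⟨lam, hS, dim_cond (shear f lam) hs hS h4 h5⟩

theorem final {k : Type u} [Field k] [Infinite k] {n m : ℕ} (hn : m + 3 ≤ n)
    (h : 3 * m + 4 ≤ 2 * n)
    (φ : MvPolynomial (Fin n) k →ₐ[k] MvPolynomial (Fin m) k) (hφ : Function.Surjective φ) :
    ∃ w : Fin (n - m) → MvPolynomial (Fin n) k, Ideal.span (Set.range w) = RingHom.ker φ := by
  obtain ⟨r, rfl⟩ := Nat.exists_eq_add_of_le hn
  have hnr : m + 3 + r = m + r + 2 + 1 := by omega
  have hw : r + 3 = m + 3 + r - m := by omega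
  have key : ∀ (n' r' : ℕ) (hn' : n' = m + r + 2 + 1) (hr' : r' = r + 3)
      (ψ : MvPolynomial (Fin n') k →ₐ[k] MvPolynomial (Fin m) k), Function.Surjective ψ →
      ∃ w : Fin r' → MvPolynomial (Fin n') k, Ideal.span (Set.range w) = RingHom.ker ψ := by
    rintro n' r' rfl rfl ψ hψ
    obtain ⟨lam, hS, hdim⟩ := FIN.generic (N := m + r + 2) (m := m) (δ := r) (by omega) (by omega)
      (by omega) ψ hψ
    obtain ⟨w, hw⟩ := main (r := r) (by omega) (shear (fun i => ψ (MvPolynomial.X i)) lam)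
      (shear_surjective ψ hψ lam) hS hdim
    exact shear_reduce ψ lam w hw
  exact key _ _ hnr hw.symm φ hφ

end Pool.Agent.H85.AAE2
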